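import Mathlib

set_option autoImplicit false
set_option synthInstance.maxSize 1024

namespace Pool.Agent.Results.MP_95728c_co.Q1Disproof

variable {V : Type}

/-- One step of the lions: each lion stays where it is or moves along one edge. -/
def IsLionStep (G : SimpleGraph V) {k : ℕ} (p q : Fin k → V) : Prop :=
  ∀ i, q i = p i ∨ G.Adj (p i) (q i)

/-- The cleared set at time `t + 1`, when the lions go from the positions `p` (time `t`) to the
positions `q` (time `t + 1`) and the cleared set at time `t` is `C`: a vertex `v` is cleared at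
time `t + 1` if it is occupied at time `t + 1`, or if it was cleared at time `t` and for every
neighbour `u` of `v` outside `C` some lion moves along `vu` from `v` to `u`. -/
def nextCleared (G : SimpleGraph V) {k : ℕ} (p q : Fin k → V) (C : Set V) : Set V :=
  {v | (∃ i, q i = v) ∨ (v ∈ C ∧ ∀ u, G.Adj v u → u ∉ C → ∃ i, p i = v ∧ q i = u)}

/-- The cleared set `C(t)` for the lion positions `p t i` (lion `i` at time `t`). -/
def cleared (G : SimpleGraph V) {k : ℕ} (p : ℕ → Fin k → V) : ℕ → Set V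
  | 0 => {v | ∃ i, p 0 i = v}
  | t + 1 => nextCleared G (p t) (p (t + 1)) (cleared G p t)

/-- `k` lions can sweep `G`. -/
def Sweepable (G : SimpleGraph V) (k : ℕ) : Prop :=
  ∃ p : ℕ → Fin k → V, (∀ t, IsLionStep G (p t) (p (t + 1))) ∧
    ∃ T, cleared G p T = Set.univ

/-- `k` lions can sweep `G` monotonically: no cleared vertex is ever recontaminated. -/
def MonotoneSweepable (G : SimpleGraph V) (k : ℕ) : Prop :=
  ∃ p : ℕ → Fin k → V, (∀ t, IsLionStep G (p t) (p (t + 1))) ∧
    ∃ T, cleared G p T = Set.univ ∧ ∀ t < T, cleared G p t ⊆ cleared G p (t + 1)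

lemma cleared_succ (G : SimpleGraph V) {k : ℕ} (p : ℕ → Fin k → V) (t : ℕ) :
    cleared G p (t + 1) = nextCleared G (p t) (p (t + 1)) (cleared G p t) := rfl

lemma mem_next (G : SimpleGraph V) {k : ℕ} (p q : Fin k → V) (C : Set V) (v : V) :
    v ∈ nextCleared G p q C ↔
      (∃ i, q i = v) ∨ (v ∈ C ∧ ∀ u, G.Adj v u → u ∉ C → ∃ i, p i = v ∧ q i = u) := Iff.rfl

lemma mem_zero (G : SimpleGraph V) {k : ℕ} (p : ℕ → Fin k → V) (v : V) :
    v ∈ cleared G p 0 ↔ ∃ i, p 0 i = v := Iff.rfl

/-- the vertex type of the complete bipartite graph with parts of sizes 3 and 2 -/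
abbrev W := Fin 3 ⊕ Fin 2

/-- the complete bipartite graph with parts of sizes 3 and 2 -/
def K : SimpleGraph W := completeBipartiteGraph (Fin 3) (Fin 2)

instance : DecidableRel K.Adj := fun a b =>
  inferInstanceAs (Decidable (a.isLeft ∧ b.isRight ∨ a.isRight ∧ b.isLeft))

/-- computable version of `nextCleared` for two lions on `K` -/
def nextF (a b a' b' : W) (S : Finset W) : Finset W :=
  Finset.univ.filter (fun v => (v = a' ∨ v = b') ∨
    (v ∈ S ∧ ∀ u, K.Adj v u → u ∉ S → (v = a ∧ u = a') ∨ (v = b ∧ u = b')))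

lemma coe_nextF (p q : Fin 2 → W) (S : Finset W) :
    (nextF (p 0) (p 1) (q 0) (q 1) S : Set W) = nextCleared K p q S := by
  ext v
  rw [mem_next]
  simp only [nextF, Finset.coe_filter, Finset.mem_univ, true_and, Set.mem_ofPred_eq,
    Fin.exists_fin_two, Finset.mem_coe]
  constructor
  · rintro (h | ⟨h1, h2⟩)
    · left; rcases h with h | h
      · left; exact h.symm
      · right; exact h.symm
    · right; refine ⟨h1, fun u hu hS => ?_⟩
      rcases h2 u hu hS with ⟨h, h'⟩ | ⟨h, h'⟩
      · left; exact ⟨h.symm, h'.symm⟩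
      · right; exact ⟨h.symm, h'.symm⟩
  · rintro (h | ⟨h1, h2⟩)
    · left; rcases h with h | h
      · left; exact h.symm
      · right; exact h.symm
    · right; refine ⟨h1, fun u hu hS => ?_⟩
      rcases h2 u hu hS with ⟨h, h'⟩ | ⟨h, h'⟩
      · left; exact ⟨h.symm, h'.symm⟩
      · right; exact ⟨h.symm, h'.symm⟩

/-- a sweep of `K` by two lions -/
def sw : ℕ → Fin 2 → W
  | 0 => ![Sum.inl 0, Sum.inr 0]
  | 1 => ![Sum.inr 1, Sum.inl 1]
  | 2 => ![Sum.inl 2, Sum.inr 0]
  | _ => ![Sum.inr 1, Sum.inl 0]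

lemma sweep_K : Sweepable K 2 := by
  refine ⟨sw, ?_, 3, ?_⟩
  · intro t i
    rcases t with _ | _ | _ | t
    · fin_cases i <;> simp [sw, K, completeBipartiteGraph]
    · fin_cases i <;> simp [sw, K, completeBipartiteGraph]
    · fin_cases i <;> simp [sw, K, completeBipartiteGraph]
    · left; rfl
  · have h0 : cleared K sw 0 = (({Sum.inl 0, Sum.inr 0} : Finset W) : Set W) := by
      ext v
      simp only [cleared, sw, Fin.exists_fin_two]
      simp [eq_comm]
    have h1 : cleared K sw 1 = (({Sum.inl 0, Sum.inl 1, Sum.inr 1} : Finset W) : Set W) := by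
      rw [cleared_succ, h0, ← coe_nextF]
      congr 1
    have h2 : cleared K sw 2 =
        (({Sum.inl 1, Sum.inl 2, Sum.inr 0, Sum.inr 1} : Finset W) : Set W) := by
      rw [cleared_succ, h1, ← coe_nextF]
      congr 1
    rw [cleared_succ, h2, ← coe_nextF, ← Finset.coe_univ]
    congr 1

/-- invariant of monotone sweeps of `K` by two lions -/
def Good (a b : W) (S : Finset W) : Prop :=
  S = {a, b} ∨ (((a = Sum.inr 0 ∧ b = Sum.inr 1) ∨ (a = Sum.inr 1 ∧ b = Sum.inr 0)) ∧
    ∃ c, S = {c, Sum.inr 0, Sum.inr 1})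

instance (a b : W) (S : Finset W) : Decidable (Good a b S) := by
  unfold Good; infer_instance

set_option maxRecDepth 100000 in
lemma good_step1 : ∀ a b a' b' : W, (a' = a ∨ K.Adj a a') → (b' = b ∨ K.Adj b b') →
    ({a, b} : Finset W) ⊆ nextF a b a' b' {a, b} →
    Good a' b' (nextF a b a' b' {a, b}) := by decide +kernel

set_option maxRecDepth 100000 in
lemma good_step2 : ∀ c a' b' : W, (a' = Sum.inr 0 ∨ K.Adj (Sum.inr 0) a') →
    (b' = Sum.inr 1 ∨ K.Adj (Sum.inr 1) b') →
    ({c, Sum.inr 0, Sum.inr 1} : Finset W) ⊆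
      nextF (Sum.inr 0) (Sum.inr 1) a' b' {c, Sum.inr 0, Sum.inr 1} →
    Good a' b' (nextF (Sum.inr 0) (Sum.inr 1) a' b' {c, Sum.inr 0, Sum.inr 1}) := by
  decide +kernel

set_option maxRecDepth 100000 in
lemma good_step3 : ∀ c a' b' : W, (a' = Sum.inr 1 ∨ K.Adj (Sum.inr 1) a') →
    (b' = Sum.inr 0 ∨ K.Adj (Sum.inr 0) b') →
    ({c, Sum.inr 0, Sum.inr 1} : Finset W) ⊆
      nextF (Sum.inr 1) (Sum.inr 0) a' b' {c, Sum.inr 0, Sum.inr 1} →
    Good a' b' (nextF (Sum.inr 1) (Sum.inr 0) a' b' {c, Sum.inr 0, Sum.inr 1}) := by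
  decide +kernel

lemma good_step (a b a' b' : W) (S : Finset W) (hS : Good a b S)
    (ha : a' = a ∨ K.Adj a a') (hb : b' = b ∨ K.Adj b b')
    (hm : S ⊆ nextF a b a' b' S) : Good a' b' (nextF a b a' b' S) := by
  rcases hS with rfl | ⟨⟨rfl, rfl⟩ | ⟨rfl, rfl⟩, c, rfl⟩
  · exact good_step1 a b a' b' ha hb hm
  · exact good_step2 c a' b' ha hb hm
  · exact good_step3 c a' b' ha hb hm

lemma good_ne_univ (a b : W) (S : Finset W) (hS : Good a b S) : S ≠ Finset.univ := by
  intro h
  have hc : S.card = 5 := by rw [h]; rfl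
  rcases hS with rfl | ⟨_, c, rfl⟩
  · have := Finset.card_le_two (a := a) (b := b); omega
  · have := Finset.card_le_three (a := c) (b := Sum.inr 0) (c := Sum.inr 1); omega

lemma not_monotone_K : ¬ MonotoneSweepable K 2 := by
  rintro ⟨p, hp, T, hT, hmono⟩
  have key : ∀ t ≤ T, ∃ S : Finset W, (S : Set W) = cleared K p t ∧
      Good (p t 0) (p t 1) S := by
    intro t
    induction t with
    | zero =>
      intro _
      refine ⟨{p 0 0, p 0 1}, ?_, Or.inl rfl⟩
      ext v
      rw [mem_zero]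
      simp only [Finset.coe_insert, Finset.coe_singleton, Set.mem_insert_iff,
        Set.mem_singleton_iff, Fin.exists_fin_two]
      constructor
      · rintro (h | h)
        · exact Or.inl h.symm
        · exact Or.inr h.symm
      · rintro (h | h)
        · exact Or.inl h.symm
        · exact Or.inr h.symm
    | succ t ih =>
      intro ht
      obtain ⟨S, hS, hg⟩ := ih (by omega)
      have hn : (nextF (p t 0) (p t 1) (p (t + 1) 0) (p (t + 1) 1) S : Set W) =
          cleared K p (t + 1) := by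
        rw [coe_nextF, hS, cleared_succ]
      refine ⟨_, hn, good_step _ _ _ _ _ hg (hp t 0) (hp t 1) ?_⟩
      have := hmono t (by omega)
      rw [← hn, ← hS] at this
      exact_mod_cast this
  obtain ⟨S, hS, hg⟩ := key T le_rfl
  apply good_ne_univ _ _ _ hg
  rw [hT, ← Finset.coe_univ] at hS
  exact_mod_cast hS

/-- Two lions can sweep the complete bipartite graph with parts of sizes 3 and 2, but none of its
sweeps by two lions is monotonic. -/
theorem result : Sweepable (completeBipartiteGraph (Fin 3) (Fin 2)) 2 ∧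
    ¬ MonotoneSweepable (completeBipartiteGraph (Fin 3) (Fin 2)) 2 :=
  ⟨sweep_K, not_monotone_K⟩

end Pool.Agent.Results.MP_95728c_co.Q1Disproof
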