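import Mathlib

set_option autoImplicit false

namespace Pool.Agent.Results.MP_95728c_co.Q2Smallest

variable {V : Type}

/-- One step of the lions: each lion stays where it is or moves along one edge. -/
def IsLionStep (G : SimpleGraph V) {k : ℕ} (p q : Fin k → V) : Prop :=
  ∀ i, q i = p i ∨ G.Adj (p i) (q i)

/-- The cleared set at time `t + 1`, when the lions go from the positions `p` (time `t`) to the
positions `q` (time `t + 1`) and the cleared set at time `t` is `C`: a vertex `v` is cleared at
time `t + 1` if it is occupied at time `t + 1`, or if it was cleared at time `t` and for every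
neighbour `u` of `v` outside `C` some lion moves along `vu` from `v` to `u`. -/
def nextCleared (G : SimpleGraph V) {k : ℕ} (p q : Fin k → V) (C : Set V) : Set V :=
  {v | (∃ i, q i = v) ∨ (v ∈ C ∧ ∀ u, G.Adj v u → u ∉ C → ∃ i, p i = v ∧ q i = u)}

/-- The cleared set `C(t)` for the lion positions `p t i` (lion `i` at time `t`). -/
def cleared (G : SimpleGraph V) {k : ℕ} (p : ℕ → Fin k → V) : ℕ → Set V
  | 0 => {v | ∃ i, p 0 i = v}
  | t + 1 => nextCleared G (p t) (p (t + 1)) (cleared G p t)

/-- `k` lions can sweep `G`. -/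
def Sweepable (G : SimpleGraph V) (k : ℕ) : Prop :=
  ∃ p : ℕ → Fin k → V, (∀ t, IsLionStep G (p t) (p (t + 1))) ∧
    ∃ T, cleared G p T = Set.univ

/-- `k` lions can sweep `G` monotonically: no cleared vertex is ever recontaminated. -/
def MonotoneSweepable (G : SimpleGraph V) (k : ℕ) : Prop :=
  ∃ p : ℕ → Fin k → V, (∀ t, IsLionStep G (p t) (p (t + 1))) ∧
    ∃ T, cleared G p T = Set.univ ∧ ∀ t < T, cleared G p t ⊆ cleared G p (t + 1)

lemma cleared_succ (G : SimpleGraph V) {k : ℕ} (p : ℕ → Fin k → V) (t : ℕ) :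
    cleared G p (t + 1) = nextCleared G (p t) (p (t + 1)) (cleared G p t) := rfl

lemma mem_next (G : SimpleGraph V) {k : ℕ} (p q : Fin k → V) (C : Set V) (v : V) :
    v ∈ nextCleared G p q C ↔
      (∃ i, q i = v) ∨ (v ∈ C ∧ ∀ u, G.Adj v u → u ∉ C → ∃ i, p i = v ∧ q i = u) := Iff.rfl

lemma mem_zero (G : SimpleGraph V) {k : ℕ} (p : ℕ → Fin k → V) (v : V) :
    v ∈ cleared G p 0 ↔ ∃ i, p 0 i = v := Iff.rfl

/-! ### The complete bipartite graph with parts of sizes 3 and 2 -/

/-- The complete bipartite graph with parts `{0,1,2}` and `{3,4}`. -/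
def K23 : SimpleGraph (Fin 5) where
  Adj a b := (a.val < 3 ∧ 3 ≤ b.val) ∨ (b.val < 3 ∧ 3 ≤ a.val)
  symm := ⟨by intro a b h; tauto⟩
  loopless := ⟨by intro a h; omega⟩

instance : DecidableRel K23.Adj := fun a b => by unfold K23; infer_instance

/-- computable version of `nextCleared` for two lions on `K23` -/
def nextF (a b a' b' : Fin 5) (S : Finset (Fin 5)) : Finset (Fin 5) :=
  Finset.univ.filter (fun v => (v = a' ∨ v = b') ∨
    (v ∈ S ∧ ∀ u, K23.Adj v u → u ∉ S → (v = a ∧ u = a') ∨ (v = b ∧ u = b')))

lemma coe_nextF (p q : Fin 2 → Fin 5) (S : Finset (Fin 5)) :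
    (nextF (p 0) (p 1) (q 0) (q 1) S : Set (Fin 5)) = nextCleared K23 p q S := by
  ext v
  rw [mem_next]
  simp only [nextF, Finset.coe_filter, Finset.mem_univ, true_and, Set.mem_ofPred_eq,
    Fin.exists_fin_two, Finset.mem_coe]
  constructor
  · rintro (h | ⟨h1, h2⟩)
    · left; rcases h with h | h
      · left; exact h.symm
      · right; exact h.symm
    · right; refine ⟨h1, fun u hu hS => ?_⟩
      rcases h2 u hu hS with ⟨h, h'⟩ | ⟨h, h'⟩
      · left; exact ⟨h.symm, h'.symm⟩
      · right; exact ⟨h.symm, h'.symm⟩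
  · rintro (h | ⟨h1, h2⟩)
    · left; rcases h with h | h
      · left; exact h.symm
      · right; exact h.symm
    · right; refine ⟨h1, fun u hu hS => ?_⟩
      rcases h2 u hu hS with ⟨h, h'⟩ | ⟨h, h'⟩
      · left; exact ⟨h.symm, h'.symm⟩
      · right; exact ⟨h.symm, h'.symm⟩

/-- a sweep of `K23` by two lions -/
def sw : ℕ → Fin 2 → Fin 5
  | 0 => ![0, 3]
  | 1 => ![4, 1]
  | 2 => ![2, 3]
  | _ => ![4, 0]

lemma sweep_K23 : Sweepable K23 2 := by
  refine ⟨sw, ?_, 3, ?_⟩
  · intro t i
    rcases t with _ | _ | _ | t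
    · fin_cases i <;> simp [sw, K23]
    · fin_cases i <;> simp [sw, K23]
    · fin_cases i <;> simp [sw, K23]
    · left; rfl
  · have h0 : cleared K23 sw 0 = (({0, 3} : Finset (Fin 5)) : Set (Fin 5)) := by
      ext v
      simp only [cleared, sw, Fin.exists_fin_two]
      fin_cases v <;> simp
    have h1 : cleared K23 sw 1 = (({0, 1, 4} : Finset (Fin 5)) : Set (Fin 5)) := by
      rw [cleared_succ, h0, ← coe_nextF]
      congr 1
    have h2 : cleared K23 sw 2 = (({1, 2, 3, 4} : Finset (Fin 5)) : Set (Fin 5)) := by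
      rw [cleared_succ, h1, ← coe_nextF]
      congr 1
    rw [cleared_succ, h2, ← coe_nextF, ← Finset.coe_univ]
    congr 1

/-- invariant of monotone sweeps of `K23` by two lions -/
def Good (a b : Fin 5) (S : Finset (Fin 5)) : Prop :=
  S = {a, b} ∨ (((a = 3 ∧ b = 4) ∨ (a = 4 ∧ b = 3)) ∧ ∃ c, S = {c, 3, 4})

instance (a b : Fin 5) (S : Finset (Fin 5)) : Decidable (Good a b S) := by
  unfold Good; infer_instance

set_option maxRecDepth 100000 in
lemma good_step1 : ∀ a b a' b' : Fin 5, (a' = a ∨ K23.Adj a a') → (b' = b ∨ K23.Adj b b') →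
    ({a, b} : Finset (Fin 5)) ⊆ nextF a b a' b' {a, b} →
    Good a' b' (nextF a b a' b' {a, b}) := by decide +kernel

set_option maxRecDepth 100000 in
lemma good_step2 : ∀ c a' b' : Fin 5, (a' = 3 ∨ K23.Adj 3 a') → (b' = 4 ∨ K23.Adj 4 b') →
    ({c, 3, 4} : Finset (Fin 5)) ⊆ nextF 3 4 a' b' {c, 3, 4} →
    Good a' b' (nextF 3 4 a' b' {c, 3, 4}) := by decide +kernel

set_option maxRecDepth 100000 in
lemma good_step3 : ∀ c a' b' : Fin 5, (a' = 4 ∨ K23.Adj 4 a') → (b' = 3 ∨ K23.Adj 3 b') →
    ({c, 3, 4} : Finset (Fin 5)) ⊆ nextF 4 3 a' b' {c, 3, 4} →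
    Good a' b' (nextF 4 3 a' b' {c, 3, 4}) := by decide +kernel

lemma good_step (a b a' b' : Fin 5) (S : Finset (Fin 5)) (hS : Good a b S)
    (ha : a' = a ∨ K23.Adj a a') (hb : b' = b ∨ K23.Adj b b')
    (hm : S ⊆ nextF a b a' b' S) : Good a' b' (nextF a b a' b' S) := by
  rcases hS with rfl | ⟨⟨rfl, rfl⟩ | ⟨rfl, rfl⟩, c, rfl⟩
  · exact good_step1 a b a' b' ha hb hm
  · exact good_step2 c a' b' ha hb hm
  · exact good_step3 c a' b' ha hb hm

lemma good_ne_univ (a b : Fin 5) (S : Finset (Fin 5)) (hS : Good a b S) : S ≠ Finset.univ := by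
  intro h
  have hc : S.card = 5 := by rw [h]; rfl
  rcases hS with rfl | ⟨_, c, rfl⟩
  · have := Finset.card_le_two (a := a) (b := b); omega
  · have := Finset.card_le_three (a := c) (b := 3) (c := 4); omega

lemma not_monotone_K23 : ¬ MonotoneSweepable K23 2 := by
  rintro ⟨p, hp, T, hT, hmono⟩
  have key : ∀ t ≤ T, ∃ S : Finset (Fin 5), (S : Set (Fin 5)) = cleared K23 p t ∧
      Good (p t 0) (p t 1) S := by
    intro t
    induction t with
    | zero =>
      intro _
      refine ⟨{p 0 0, p 0 1}, ?_, Or.inl rfl⟩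
      ext v
      rw [mem_zero]
      simp only [Finset.coe_insert, Finset.coe_singleton, Set.mem_insert_iff,
        Set.mem_singleton_iff, Fin.exists_fin_two]
      constructor
      · rintro (h | h)
        · exact Or.inl h.symm
        · exact Or.inr h.symm
      · rintro (h | h)
        · exact Or.inl h.symm
        · exact Or.inr h.symm
    | succ t ih =>
      intro ht
      obtain ⟨S, hS, hg⟩ := ih (by omega)
      have hn : (nextF (p t 0) (p t 1) (p (t + 1) 0) (p (t + 1) 1) S : Set (Fin 5)) =
          cleared K23 p (t + 1) := by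
        rw [coe_nextF, hS, cleared_succ]
      refine ⟨_, hn, good_step _ _ _ _ _ hg (hp t 0) (hp t 1) ?_⟩
      have := hmono t (by omega)
      rw [← hn, ← hS] at this
      exact_mod_cast this
  obtain ⟨S, hS, hg⟩ := key T le_rfl
  apply good_ne_univ _ _ _ hg
  rw [hT, ← Finset.coe_univ] at hS
  exact_mod_cast hS

/-! ### General facts -/

lemma cleared_visited (G : SimpleGraph V) {k : ℕ} (p : ℕ → Fin k → V) (t : ℕ) (v : V)
    (hv : v ∈ cleared G p t) : ∃ s ≤ t, ∃ i, p s i = v := by
  induction t with
  | zero => exact ⟨0, le_rfl, hv⟩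
  | succ t ih =>
    rcases hv with h | ⟨h, _⟩
    · exact ⟨t + 1, le_rfl, h⟩
    · obtain ⟨s, hs, i, hi⟩ := ih h
      exact ⟨s, by omega, i, hi⟩

/-- a set in which every vertex has two neighbours inside the set, and in which at any time at most
one vertex is occupied, contains at any time at most one cleared vertex -/
lemma two_nbrs (G : SimpleGraph V) {k : ℕ} (p : ℕ → Fin k → V) (Z : Set V)
    (hZ : ∀ z ∈ Z, ∃ a ∈ Z, ∃ b ∈ Z, a ≠ b ∧ G.Adj z a ∧ G.Adj z b)
    (hp : ∀ t i j, p t i ∈ Z → p t j ∈ Z → p t i = p t j) (t : ℕ) :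
    ∀ v ∈ Z, ∀ w ∈ Z, v ∈ cleared G p t → w ∈ cleared G p t → v = w := by
  induction t with
  | zero =>
    rintro v hv w hw ⟨i, rfl⟩ ⟨j, rfl⟩
    exact hp 0 i j hv hw
  | succ t ih =>
    have key : ∀ v ∈ Z, v ∈ cleared G p (t + 1) → ∃ i, p (t + 1) i = v := by
      rintro v hv (h | ⟨h1, h2⟩)
      · exact h
      · exfalso
        obtain ⟨a, ha, b, hb, hab, hva, hvb⟩ := hZ v hv
        have ha' : a ∉ cleared G p t := fun h => hva.ne (ih v hv a ha h1 h)
        have hb' : b ∉ cleared G p t := fun h => hvb.ne (ih v hv b hb h1 h)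
        obtain ⟨i, _, hi⟩ := h2 a hva ha'
        obtain ⟨j, _, hj⟩ := h2 b hvb hb'
        apply hab
        rw [← hi, ← hj]
        exact hp (t + 1) i j (hi ▸ ha) (hj ▸ hb)
    intro v hv w hw h1 h2
    obtain ⟨i, rfl⟩ := key v hv h1
    obtain ⟨j, rfl⟩ := key w hw h2
    exact hp (t + 1) i j hv hw

/-- with one lion, at most two of a vertex and three of its neighbours are cleared at any time -/
lemma three_nbrs (G : SimpleGraph V) (p : ℕ → Fin 1 → V) (c x y z : V)
    (hx : G.Adj c x) (hy : G.Adj c y) (hz : G.Adj c z) (hxy : x ≠ y) (hxz : x ≠ z) (hyz : y ≠ z)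
    (t : ℕ) : ¬ (c ∈ cleared G p t ∧ x ∈ cleared G p t ∧ y ∈ cleared G p t) ∧
      ¬ (c ∈ cleared G p t ∧ x ∈ cleared G p t ∧ z ∈ cleared G p t) ∧
      ¬ (c ∈ cleared G p t ∧ y ∈ cleared G p t ∧ z ∈ cleared G p t) ∧
      ¬ (x ∈ cleared G p t ∧ y ∈ cleared G p t ∧ z ∈ cleared G p t) := by
  have hcx := hx.ne
  have hcy := hy.ne
  have hcz := hz.ne
  induction t with
  | zero =>
    have hm : ∀ v, v ∈ cleared G p 0 ↔ v = p 0 0 := by
      intro v
      rw [mem_zero]
      constructor
      · rintro ⟨i, rfl⟩; rw [Subsingleton.elim i 0]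
      · rintro rfl; exact ⟨0, rfl⟩
    simp only [hm]
    refine ⟨?_, ?_, ?_, ?_⟩ <;> rintro ⟨h1, h2, h3⟩
    · exact hcx (h1.trans h2.symm)
    · exact hcx (h1.trans h2.symm)
    · exact hcy (h1.trans h2.symm)
    · exact hxy (h1.trans h2.symm)
  | succ t ih =>
    have hm : ∀ v, v ∈ cleared G p (t + 1) ↔ (v = p (t + 1) 0) ∨ (v ∈ cleared G p t ∧
        ∀ u, G.Adj v u → u ∉ cleared G p t → v = p t 0 ∧ u = p (t + 1) 0) := by
      intro v
      rw [cleared_succ, mem_next]
      simp only [Fin.exists_fin_one, eq_comm]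
    have hc' : c ∈ cleared G p (t + 1) → c = p (t + 1) 0 ∨ (c ∈ cleared G p t ∧
        (x ∉ cleared G p t → x = p (t + 1) 0) ∧ (y ∉ cleared G p t → y = p (t + 1) 0) ∧
        (z ∉ cleared G p t → z = p (t + 1) 0)) := by
      intro h
      rcases (hm c).1 h with h | ⟨h1, h2⟩
      · exact Or.inl h
      · exact Or.inr ⟨h1, fun h => (h2 x hx h).2, fun h => (h2 y hy h).2, fun h => (h2 z hz h).2⟩
    have hn : ∀ v, G.Adj c v → v ∈ cleared G p (t + 1) → v = p (t + 1) 0 ∨
        (v ∈ cleared G p t ∧ (c ∉ cleared G p t → v = p t 0 ∧ c = p (t + 1) 0)) := by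
      intro v hv h
      rcases (hm v).1 h with h | ⟨h1, h2⟩
      · exact Or.inl h
      · exact Or.inr ⟨h1, fun h => h2 c hv.symm h⟩
    have hx' := hn x hx
    have hy' := hn y hy
    have hz' := hn z hz
    clear hn hm
    obtain ⟨i1, i2, i3, i4⟩ := ih
    refine ⟨?_, ?_, ?_, ?_⟩ <;> rintro ⟨h1, h2, h3⟩ <;> grind

/-! ### One lion -/

lemma reachable_start (G : SimpleGraph V) {k : ℕ} (p : ℕ → Fin k → V)
    (hp : ∀ t, IsLionStep G (p t) (p (t + 1))) (t : ℕ) (i : Fin k) :
    G.Reachable (p 0 i) (p t i) := by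
  induction t with
  | zero => exact SimpleGraph.Reachable.refl _
  | succ t ih =>
    rcases hp t i with h | h
    · rw [h]; exact ih
    · exact ih.trans h.reachable

lemma one_lion [Finite V] (G : SimpleGraph V) (h : Sweepable G 1) : MonotoneSweepable G 1 := by
  classical
  have := Fintype.ofFinite V
  obtain ⟨p, hp, T, hT⟩ := h
  have hall : ∀ v, v ∈ cleared G p T := by rw [hT]; exact fun v => trivial
  have hconn : ∀ v, G.Reachable (p 0 0) v := by
    intro v
    obtain ⟨s, _, i, rfl⟩ := cleared_visited G p T v (hall v)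
    rw [Subsingleton.elim i 0]
    exact reachable_start G p hp s 0
  have hdeg : ∀ c x y z, G.Adj c x → G.Adj c y → G.Adj c z → x ≠ y → x ≠ z → y ≠ z → False :=
    fun c x y z hx hy hz h1 h2 h3 =>
      (three_nbrs G p c x y z hx hy hz h1 h2 h3 T).1 ⟨hall _, hall _, hall _⟩
  have hcyc : ∀ Z : Set V, Z.Nonempty →
      (∀ z ∈ Z, ∃ a ∈ Z, ∃ b ∈ Z, a ≠ b ∧ G.Adj z a ∧ G.Adj z b) → False := by
    rintro Z ⟨z, hz⟩ hZ
    obtain ⟨a, ha, -, -, -, hza, -⟩ := hZ z hz
    exact hza.ne (two_nbrs G p Z hZ (by intro t i j _ _; rw [Subsingleton.elim i j]) T z hz a ha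
      (hall _) (hall _))
  -- a longest path
  let L : Set ℕ := {n | ∃ (a b : V) (w : G.Walk a b), w.IsPath ∧ w.length = n}
  have hLne : L.Nonempty := ⟨0, p 0 0, p 0 0, SimpleGraph.Walk.nil, by simp, rfl⟩
  have hLb : BddAbove L := by
    refine ⟨Fintype.card V, ?_⟩
    rintro n ⟨a, b, w, hw, rfl⟩
    exact hw.length_lt.le
  obtain ⟨a, b, w, hw, hwn⟩ := Nat.sSup_mem hLne hLb
  have hmax : ∀ (c d : V) (w' : G.Walk c d), w'.IsPath → w'.length ≤ w.length := by
    intro c d w' hw'
    rw [hwn]
    exact le_csSup hLb ⟨c, d, w', hw', rfl⟩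
  clear hwn
  have hadj : ∀ i, i < w.length → G.Adj (w.getVert i) (w.getVert (i + 1)) :=
    fun i hi => w.adj_getVert_succ hi
  have hinj : ∀ i j, i ≤ w.length → j ≤ w.length → w.getVert i = w.getVert j → i = j := by
    intro i j hi hj hij
    exact hw.getVert_injOn hi hj hij
  have hclosed : ∀ i ≤ w.length, ∀ u, G.Adj (w.getVert i) u → ∃ j ≤ w.length, w.getVert j = u := by
    intro i hi u hu
    by_contra hcon
    push Not at hcon
    have hus : u ∉ w.support := by
      intro h
      obtain ⟨n, hn, hn'⟩ := (SimpleGraph.Walk.mem_support_iff_exists_getVert).1 h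
      exact hcon n hn' hn
    rcases Nat.eq_zero_or_pos i with rfl | hi0
    · rw [SimpleGraph.Walk.getVert_zero] at hu
      have := hmax _ _ (SimpleGraph.Walk.cons hu.symm w) (hw.cons hus)
      simp at this
    · rcases Nat.lt_or_ge i w.length with hi1 | hi1
      · have h1 : G.Adj (w.getVert i) (w.getVert (i - 1)) := by
          have := hadj (i - 1) (by omega)
          rw [Nat.sub_add_cancel hi0] at this
          exact this.symm
        refine hdeg (w.getVert i) (w.getVert (i - 1)) (w.getVert (i + 1)) u h1 (hadj i hi1) hu ?_ ?_ ?_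
        · intro h
          have := hinj _ _ (by omega) (by omega) h
          omega
        · intro h; exact hcon _ (by omega) h
        · intro h; exact hcon _ (by omega) h
      · have hiL : i = w.length := le_antisymm hi hi1
        rw [hiL, SimpleGraph.Walk.getVert_length] at hu
        have := hmax _ _ (SimpleGraph.Walk.cons hu.symm w.reverse)
          (hw.reverse.cons (by simpa using hus))
        simp at this
  have hcover : ∀ v, ∃ j ≤ w.length, w.getVert j = v := by
    intro v
    have hr : G.Reachable a v := (hconn a).symm.trans (hconn v)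
    obtain ⟨q⟩ := hr
    have : ∀ (c d : V) (q : G.Walk c d), (∃ j ≤ w.length, w.getVert j = c) →
        ∃ j ≤ w.length, w.getVert j = d := by
      intro c d q
      induction q with
      | nil => exact id
      | cons h q ih =>
        rintro ⟨j, hj, rfl⟩
        exact ih (hclosed j hj _ h)
    exact this a v q ⟨0, Nat.zero_le _, w.getVert_zero⟩
  have hchord : ∀ i j, i < j → j ≤ w.length → G.Adj (w.getVert i) (w.getVert j) → j = i + 1 := by
    intro i j hij hj hA
    by_contra hne
    rcases Nat.eq_zero_or_pos i with rfl | hi0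
    · apply hcyc {v | ∃ m ≤ j, w.getVert m = v} ⟨w.getVert 0, 0, Nat.zero_le _, rfl⟩
      rintro z ⟨m, hm, rfl⟩
      rcases Nat.eq_zero_or_pos m with rfl | hm0
      · refine ⟨w.getVert 1, ⟨1, by omega, rfl⟩, w.getVert j, ⟨j, le_rfl, rfl⟩, ?_,
          hadj 0 (by omega), hA⟩
        intro h
        have := hinj _ _ (by omega) (by omega) h
        omega
      · have h1 : G.Adj (w.getVert m) (w.getVert (m - 1)) := by
          have := hadj (m - 1) (by omega)
          rw [Nat.sub_add_cancel hm0] at this
          exact this.symm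
        rcases Nat.lt_or_ge m j with hmj | hmj
        · refine ⟨w.getVert (m - 1), ⟨m - 1, by omega, rfl⟩, w.getVert (m + 1),
            ⟨m + 1, by omega, rfl⟩, ?_, h1, hadj m (by omega)⟩
          intro h
          have := hinj _ _ (by omega) (by omega) h
          omega
        · have hmj' : m = j := le_antisymm hm hmj
          subst hmj'
          refine ⟨w.getVert (m - 1), ⟨m - 1, by omega, rfl⟩, w.getVert 0,
            ⟨0, by omega, rfl⟩, ?_, h1, hA.symm⟩
          intro h
          have := hinj _ _ (by omega) (by omega) h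
          omega
    · have h1 : G.Adj (w.getVert i) (w.getVert (i - 1)) := by
        have := hadj (i - 1) (by omega)
        rw [Nat.sub_add_cancel hi0] at this
        exact this.symm
      refine hdeg (w.getVert i) (w.getVert (i - 1)) (w.getVert (i + 1)) (w.getVert j) h1
        (hadj i (by omega)) hA ?_ ?_ ?_ <;>
      · intro h
        have := hinj _ _ (by omega) (by omega) h
        omega
  -- the monotone sweep
  have hcl : ∀ t, cleared G (fun t (_ : Fin 1) => w.getVert t) t =
      {v | ∃ j ≤ t, w.getVert j = v} := by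
    intro t
    induction t with
    | zero =>
      ext v
      rw [mem_zero]
      constructor
      · rintro ⟨_, rfl⟩; exact ⟨0, le_rfl, rfl⟩
      · rintro ⟨j, hj, rfl⟩
        obtain rfl : j = 0 := by omega
        exact ⟨0, rfl⟩
    | succ t ih =>
      ext v
      rw [cleared_succ, mem_next, ih]
      constructor
      · rintro (⟨_, rfl⟩ | ⟨⟨j, hj, rfl⟩, _⟩)
        · exact ⟨t + 1, le_rfl, rfl⟩
        · exact ⟨j, by omega, rfl⟩
      · rintro ⟨j, hj, rfl⟩
        rcases Nat.lt_or_ge t j with h | h
        · obtain rfl : j = t + 1 := by omega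
          exact Or.inl ⟨0, rfl⟩
        · right
          refine ⟨⟨j, h, rfl⟩, fun u hu hun => ?_⟩
          obtain ⟨m, hm, rfl⟩ := hcover u
          have hmt : t < m := by
            by_contra hle
            exact hun ⟨m, by omega, rfl⟩
          have := hchord j m (by omega) hm hu
          obtain rfl : j = t := by omega
          subst this
          exact ⟨0, rfl, rfl⟩
  refine ⟨fun t _ => w.getVert t, ?_, w.length, ?_, ?_⟩
  · intro t i
    rcases Nat.lt_or_ge t w.length with h | h
    · exact Or.inr (hadj t h)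
    · left
      change w.getVert (t + 1) = w.getVert t
      rw [w.getVert_of_length_le h, w.getVert_of_length_le (by omega)]
  · rw [hcl]
    ext v
    simp only [Set.mem_univ, iff_true]
    exact hcover v
  · intro t _
    rw [hcl, hcl]
    rintro v ⟨j, hj, rfl⟩
    exact ⟨j, by omega, rfl⟩

/-! ### Many lions -/

lemma many_lions [Fintype V] [Nonempty V] (G : SimpleGraph V) (k : ℕ) (hk : Fintype.card V ≤ k) :
    MonotoneSweepable G k := by
  obtain ⟨f, hf⟩ : ∃ f : Fin k → V, Function.Surjective f := by
    have e := Fintype.equivFin V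
    have hpos : 0 < Fintype.card V := Fintype.card_pos
    refine ⟨fun i => e.symm ⟨min i.val (Fintype.card V - 1), by omega⟩, fun v => ?_⟩
    refine ⟨⟨(e v).val, lt_of_lt_of_le (e v).isLt hk⟩, ?_⟩
    apply e.injective
    rw [Equiv.apply_symm_apply]
    ext
    have := (e v).isLt
    simp
    omega
  refine ⟨fun _ => f, fun t i => Or.inl rfl, 0, ?_, by intro t ht; omega⟩
  ext v
  simp only [Set.mem_univ, iff_true]
  exact hf v

lemma card_minus_one [Fintype V] (G : SimpleGraph V) (k : ℕ) (hk : Fintype.card V = k + 1)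
    (hs : Sweepable G k) : MonotoneSweepable G k := by
  classical
  by_cases hE : ∃ a b, G.Adj a b
  · obtain ⟨a, b, hab⟩ := hE
    have hcard : Fintype.card {v // v ≠ b} = k := by
      rw [Fintype.card_subtype_compl, Fintype.card_subtype_eq, hk]; rfl
    let e : Fin k ≃ {v // v ≠ b} := (Fintype.equivFinOfCardEq hcard).symm
    let i₀ : Fin k := e.symm ⟨a, hab.ne⟩
    let q0 : Fin k → V := fun i => (e i).1
    let q1 : Fin k → V := fun i => if i = i₀ then b else (e i).1
    have hq0 : q0 i₀ = a := by simp [q0, i₀]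
    have h0 : ∀ v, v ≠ b → ∃ i, q0 i = v := fun v hv => ⟨e.symm ⟨v, hv⟩, by simp [q0]⟩
    refine ⟨fun t => if t = 0 then q0 else q1, ?_, 1, ?_, ?_⟩
    · intro t i
      rcases t with _ | t
      · simp only [if_true, Nat.zero_add, Nat.one_ne_zero, if_false]
        by_cases hi : i = i₀
        · right
          subst hi
          rw [hq0]; simpa [q1] using hab
        · left; simp [q0, q1, hi]
      · left; simp
    · ext v
      simp only [Set.mem_univ, iff_true]
      rw [cleared_succ, mem_next]
      simp only [if_true, Nat.zero_add, Nat.one_ne_zero, if_false]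
      by_cases hvb : v = b
      · left; exact ⟨i₀, by simp [q1, hvb]⟩
      by_cases hva : v = a
      · right
        refine ⟨h0 v hvb, fun u _ hun => ⟨i₀, by rw [hva]; exact hq0, ?_⟩⟩
        have : u = b := by
          by_contra hub
          exact hun (h0 u hub)
        simp [q1, this]
      · left
        obtain ⟨i, hi⟩ := h0 v hvb
        refine ⟨i, ?_⟩
        have : i ≠ i₀ := by
          rintro rfl
          exact hva (hi.symm.trans hq0)
        simp only [q1, this, if_false]
        exact hi
    · intro t ht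
      obtain rfl : t = 0 := by omega
      rintro v ⟨i, hi⟩
      by_cases hii : i = i₀
      · right
        refine ⟨⟨i, hi⟩, fun u hu hun => ⟨i₀, ?_, ?_⟩⟩
        · rw [← hi, hii]
        · have : u = b := by
            by_contra hub
            exact hun (h0 u hub)
          simp [q1, this]
      · left
        refine ⟨i, ?_⟩
        simp only [if_true] at hi
        simp only [Nat.zero_add, Nat.one_ne_zero, if_false, q1, hii]
        exact hi
  · exfalso
    push Not at hE
    obtain ⟨p, hp, T, hT⟩ := hs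
    have hconst : ∀ t, p t = p 0 := by
      intro t
      induction t with
      | zero => rfl
      | succ t ih =>
        funext i
        rcases hp t i with h | h
        · rw [h, ih]
        · exact absurd h (hE _ _)
    have hsurj : Function.Surjective (p 0) := by
      intro v
      obtain ⟨s, _, i, hi⟩ := cleared_visited G p T v (by rw [hT]; trivial)
      exact ⟨i, by rw [← hconst s]; exact hi⟩
    have := Fintype.card_le_of_surjective _ hsurj
    simp at this
    omega

/-! ### Two lions on four vertices -/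

lemma two_steps (G : SimpleGraph V) (a0 b0 a1 b1 a2 b2 : V)
    (ha0 : a1 = a0 ∨ G.Adj a0 a1) (hb0 : b1 = b0 ∨ G.Adj b0 b1)
    (ha1 : a2 = a1 ∨ G.Adj a1 a2) (hb1 : b2 = b1 ∨ G.Adj b1 b2) (C : Set V)
    (h0a : a0 ∈ C) (h0b : b0 ∈ C)
    (h1 : ∀ v, v ∈ C ↔ (v = a1 ∨ v = b1) ∨ ((v = a0 ∨ v = b0) ∧
      ∀ u, G.Adj v u → ¬ (u = a0 ∨ u = b0) → (v = a0 ∧ u = a1) ∨ (v = b0 ∧ u = b1)))
    (h2 : ∀ v, (v = a2 ∨ v = b2) ∨ (v ∈ C ∧
      ∀ u, G.Adj v u → u ∉ C → (v = a1 ∧ u = a2) ∨ (v = b1 ∧ u = b2))) :
    MonotoneSweepable G 2 := by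
  let p : ℕ → Fin 2 → V := fun t =>
    if t = 0 then ![a0, b0] else if t = 1 then ![a1, b1] else ![a2, b2]
  have p0 : p 0 = ![a0, b0] := by simp [p]
  have p1 : p 1 = ![a1, b1] := by simp [p]
  have p2 : p 2 = ![a2, b2] := by simp [p]
  have m0 : ∀ v, v ∈ cleared G p 0 ↔ (v = a0 ∨ v = b0) := by
    intro v
    rw [mem_zero, p0]
    simp only [Fin.exists_fin_two, Matrix.cons_val_zero, Matrix.cons_val_one, eq_comm]
  have m1 : ∀ v, v ∈ cleared G p 1 ↔ v ∈ C := by
    intro v
    rw [cleared_succ, mem_next, p0, p1, h1]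
    simp only [m0, Fin.exists_fin_two, Matrix.cons_val_zero, Matrix.cons_val_one]
    grind
  have m2 : ∀ v, v ∈ cleared G p 2 := by
    intro v
    rw [cleared_succ, mem_next, p1, p2]
    simp only [m1, Fin.exists_fin_two, Matrix.cons_val_zero, Matrix.cons_val_one]
    have := h2 v
    grind
  refine ⟨p, ?_, 2, Set.eq_univ_of_forall m2, ?_⟩
  · intro t i
    rcases t with _ | _ | t
    · rw [p0, p1]; fin_cases i
      · exact ha0
      · exact hb0
    · rw [p1, p2]; fin_cases i
      · exact ha1
      · exact hb1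
    · left; simp [p]
  · intro t ht v hv
    rcases t with _ | _ | t
    · rw [m0] at hv
      rw [m1]
      rcases hv with rfl | rfl
      · exact h0a
      · exact h0b
    · exact m2 v
    · omega

lemma path_case (G : SimpleGraph V) (u x y z : V) (hc : ∀ v, v = u ∨ v = x ∨ v = y ∨ v = z)
    (hu : ∀ w, ¬ G.Adj u w) (hxz : ¬ G.Adj x z) (hxy : G.Adj x y) (hyz : G.Adj y z) :
    MonotoneSweepable G 2 := by
  have hu' : ∀ w, ¬ G.Adj w u := fun w h => hu w h.symm
  refine two_steps G u x u y u z (Or.inl rfl) (Or.inr hxy) (Or.inl rfl) (Or.inr hyz)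
    {v | v = u ∨ v = x ∨ v = y} (Or.inl rfl) (Or.inr (Or.inl rfl)) ?_ ?_
  · intro v
    constructor
    · rintro (rfl | rfl | rfl)
      · left; left; rfl
      · right
        refine ⟨Or.inr rfl, fun w hw hn => ?_⟩
        rcases hc w with rfl | rfl | rfl | rfl
        · exact absurd (Or.inl rfl) hn
        · exact absurd (Or.inr rfl) hn
        · right; exact ⟨rfl, rfl⟩
        · exact absurd hw hxz
      · left; right; rfl
    · rintro ((rfl | rfl) | ⟨rfl | rfl, _⟩)
      · left; rfl
      · right; right; rfl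
      · left; rfl
      · right; left; rfl
  · intro v
    rcases hc v with rfl | rfl | rfl | rfl
    · left; left; rfl
    · right
      refine ⟨Or.inr (Or.inl rfl), fun w hw hn => ?_⟩
      rcases hc w with rfl | rfl | rfl | rfl
      · exact absurd (Or.inl rfl) hn
      · exact absurd (Or.inr (Or.inl rfl)) hn
      · exact absurd (Or.inr (Or.inr rfl)) hn
      · exact absurd hw hxz
    · right
      refine ⟨Or.inr (Or.inr rfl), fun w hw hn => ?_⟩
      rcases hc w with rfl | rfl | rfl | rfl
      · exact absurd (Or.inl rfl) hn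
      · exact absurd (Or.inr (Or.inl rfl)) hn
      · exact absurd (Or.inr (Or.inr rfl)) hn
      · right; exact ⟨rfl, rfl⟩
    · left; right; rfl

lemma nonadj_case (G : SimpleGraph V) (u x y v : V) (hc : ∀ w, w = u ∨ w = x ∨ w = y ∨ w = v)
    (huv : ¬ G.Adj u v) (huy : G.Adj u y) (hv : G.Adj x v ∨ G.Adj y v) :
    MonotoneSweepable G 2 := by
  have key : ∀ w, w ∈ ({w | w = u ∨ w = x ∨ w = y} : Set V) ↔ (w = y ∨ w = x) ∨
      ((w = u ∨ w = x) ∧ ∀ s, G.Adj w s → ¬ (s = u ∨ s = x) → (w = u ∧ s = y) ∨
        (w = x ∧ s = x)) := by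
    intro w
    constructor
    · rintro (rfl | rfl | rfl)
      · right
        refine ⟨Or.inl rfl, fun s hs hn => ?_⟩
        rcases hc s with rfl | rfl | rfl | rfl
        · exact absurd (Or.inl rfl) hn
        · exact absurd (Or.inr rfl) hn
        · left; exact ⟨rfl, rfl⟩
        · exact absurd hs huv
      · left; right; rfl
      · left; left; rfl
    · rintro ((rfl | rfl) | ⟨rfl | rfl, _⟩)
      · right; right; rfl
      · right; left; rfl
      · left; rfl
      · right; left; rfl
  rcases hv with hv | hv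
  · refine two_steps G u x y x y v (Or.inr huy) (Or.inl rfl) (Or.inl rfl) (Or.inr hv)
      {w | w = u ∨ w = x ∨ w = y} (Or.inl rfl) (Or.inr (Or.inl rfl)) key ?_
    intro w
    rcases hc w with rfl | rfl | rfl | rfl
    · right
      refine ⟨Or.inl rfl, fun s hs hn => ?_⟩
      rcases hc s with rfl | rfl | rfl | rfl
      · exact absurd (Or.inl rfl) hn
      · exact absurd (Or.inr (Or.inl rfl)) hn
      · exact absurd (Or.inr (Or.inr rfl)) hn
      · exact absurd hs huv
    · right
      refine ⟨Or.inr (Or.inl rfl), fun s hs hn => ?_⟩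
      rcases hc s with rfl | rfl | rfl | rfl
      · exact absurd (Or.inl rfl) hn
      · exact absurd (Or.inr (Or.inl rfl)) hn
      · exact absurd (Or.inr (Or.inr rfl)) hn
      · right; exact ⟨rfl, rfl⟩
    · left; left; rfl
    · left; right; rfl
  · refine two_steps G u x y x v x (Or.inr huy) (Or.inl rfl) (Or.inr hv) (Or.inl rfl)
      {w | w = u ∨ w = x ∨ w = y} (Or.inl rfl) (Or.inr (Or.inl rfl)) key ?_
    intro w
    rcases hc w with rfl | rfl | rfl | rfl
    · right
      refine ⟨Or.inl rfl, fun s hs hn => ?_⟩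
      rcases hc s with rfl | rfl | rfl | rfl
      · exact absurd (Or.inl rfl) hn
      · exact absurd (Or.inr (Or.inl rfl)) hn
      · exact absurd (Or.inr (Or.inr rfl)) hn
      · exact absurd hs huv
    · left; right; rfl
    · right
      refine ⟨Or.inr (Or.inr rfl), fun s hs hn => ?_⟩
      rcases hc s with rfl | rfl | rfl | rfl
      · exact absurd (Or.inl rfl) hn
      · exact absurd (Or.inr (Or.inl rfl)) hn
      · exact absurd (Or.inr (Or.inr rfl)) hn
      · left; exact ⟨rfl, rfl⟩
    · left; left; rfl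

lemma isolated_lion (G : SimpleGraph V) {k : ℕ} (p : ℕ → Fin k → V)
    (hp : ∀ t, IsLionStep G (p t) (p (t + 1))) (u : V) (hu : ∀ w, ¬ G.Adj u w) (i : Fin k)
    (s : ℕ) (hs : p s i = u) (t : ℕ) : p t i = u := by
  have h0 : p 0 i = u := by
    induction s with
    | zero => exact hs
    | succ s ih =>
      apply ih
      rcases hp s i with h | h
      · rw [← h]; exact hs
      · rw [hs] at h
        exact absurd h.symm (hu _)
  induction t with
  | zero => exact h0
  | succ t ih =>
    rcases hp t i with h | h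
    · rw [h]; exact ih
    · rw [ih] at h
      exact absurd h (hu _)

lemma four_two [Fintype V] (G : SimpleGraph V) (hV : Fintype.card V = 4)
    (hs : Sweepable G 2) : MonotoneSweepable G 2 := by
  classical
  obtain ⟨p, hp, T, hT⟩ := hs
  have hall : ∀ v, v ∈ cleared G p T := by rw [hT]; exact fun v => trivial
  have hquad : ∀ u : V, ∃ x y z : V, x ≠ y ∧ x ≠ z ∧ y ≠ z ∧ x ≠ u ∧ y ≠ u ∧ z ≠ u ∧
      ∀ v, v = u ∨ v = x ∨ v = y ∨ v = z := by
    intro u
    have h3 : (Finset.univ.erase u).card = 3 := by
      rw [Finset.card_erase_of_mem (Finset.mem_univ u), Finset.card_univ, hV]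
    obtain ⟨x, y, z, hxy, hxz, hyz, h⟩ := Finset.card_eq_three.1 h3
    have hx : x ∈ Finset.univ.erase u := by rw [h]; simp
    have hy : y ∈ Finset.univ.erase u := by rw [h]; simp
    have hz : z ∈ Finset.univ.erase u := by rw [h]; simp
    refine ⟨x, y, z, hxy, hxz, hyz, Finset.ne_of_mem_erase hx, Finset.ne_of_mem_erase hy,
      Finset.ne_of_mem_erase hz, fun v => ?_⟩
    by_cases hv : v = u
    · exact Or.inl hv
    · right
      have : v ∈ Finset.univ.erase u := Finset.mem_erase.2 ⟨hv, Finset.mem_univ v⟩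
      rw [h] at this
      simpa using this
  by_cases hiso : ∃ u, ∀ w, ¬ G.Adj u w
  · obtain ⟨u, hu⟩ := hiso
    obtain ⟨s, _, i₀, hi₀⟩ := cleared_visited G p T u (hall u)
    have hi := isolated_lion G p hp u hu i₀ s hi₀
    -- no other isolated vertex
    have hno : ∀ u', u' ≠ u → ∃ w, G.Adj u' w := by
      intro u' hne
      by_contra hcon
      push Not at hcon
      obtain ⟨s', _, i', hi'⟩ := cleared_visited G p T u' (hall u')
      have hi2 := isolated_lion G p hp u' hcon i' s' hi'
      have hii : i' ≠ i₀ := by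
        rintro rfl
        exact hne ((hi2 0).symm.trans (hi 0))
      have hcov : ∀ v, v = u ∨ v = u' := by
        intro v
        obtain ⟨r, _, j, hj⟩ := cleared_visited G p T v (hall v)
        have hj' : j = i₀ ∨ j = i' := by omega
        rcases hj' with rfl | rfl
        · left; rw [← hj]; exact hi r
        · right; rw [← hj]; exact hi2 r
      obtain ⟨x, y, z, hxy, hxz, hyz, hx, hy, hz, _⟩ := hquad u
      rcases hcov x with h | h
      · exact hx h
      · rcases hcov y with h' | h'
        · exact hy h'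
        · exact hxy (h.trans h'.symm)
    obtain ⟨x, y, z, hxy, hxz, hyz, hx, hy, hz, hc⟩ := hquad u
    have hnb : ∀ v, v ≠ u → ∃ w, w ≠ u ∧ w ≠ v ∧ G.Adj v w := by
      intro v hv
      obtain ⟨w, hw⟩ := hno v hv
      exact ⟨w, fun h => hu v (h ▸ hw.symm), hw.ne.symm, hw⟩
    by_cases h1 : G.Adj x y
    · by_cases h2 : G.Adj y z
      · by_cases h3 : G.Adj x z
        · exfalso
          have htwo := two_nbrs G p {v | v = x ∨ v = y ∨ v = z} (by
            rintro v (rfl | rfl | rfl)
            · exact ⟨y, Or.inr (Or.inl rfl), z, Or.inr (Or.inr rfl), hyz, h1, h3⟩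
            · exact ⟨x, Or.inl rfl, z, Or.inr (Or.inr rfl), hxz, h1.symm, h2⟩
            · exact ⟨x, Or.inl rfl, y, Or.inr (Or.inl rfl), hxy, h3.symm, h2.symm⟩) (by
            intro t i j hi' hj'
            have hni : i ≠ i₀ := by
              rintro rfl
              rw [hi t] at hi'
              rcases hi' with h | h | h
              · exact hx h.symm
              · exact hy h.symm
              · exact hz h.symm
            have hnj : j ≠ i₀ := by
              rintro rfl
              rw [hi t] at hj'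
              rcases hj' with h | h | h
              · exact hx h.symm
              · exact hy h.symm
              · exact hz h.symm
            have : i = j := by omega
            rw [this]) T x (Or.inl rfl) y (Or.inr (Or.inl rfl)) (hall x) (hall y)
          exact hxy htwo
        · exact path_case G u x y z hc hu h3 h1 h2
      · -- y and z not adjacent, z ~ x
        have hzx : G.Adj z x := by
          obtain ⟨w, hw1, hw2, hw3⟩ := hnb z hz
          rcases hc w with rfl | rfl | rfl | rfl
          · exact absurd rfl hw1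
          · exact hw3
          · exact absurd hw3.symm h2
          · exact absurd rfl hw2
        exact path_case G u y x z (fun v => by have := hc v; tauto) hu h2 h1.symm hzx.symm
    · have hxz' : G.Adj x z := by
        obtain ⟨w, hw1, hw2, hw3⟩ := hnb x hx
        rcases hc w with rfl | rfl | rfl | rfl
        · exact absurd rfl hw1
        · exact absurd rfl hw2
        · exact absurd hw3 h1
        · exact hw3
      have hyz' : G.Adj y z := by
        obtain ⟨w, hw1, hw2, hw3⟩ := hnb y hy
        rcases hc w with rfl | rfl | rfl | rfl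
        · exact absurd rfl hw1
        · exact absurd hw3.symm h1
        · exact absurd rfl hw2
        · exact hw3
      exact path_case G u x z y (fun v => by have := hc v; tauto) hu h1 hxz' hyz'.symm
  · push Not at hiso
    by_cases hcomp : ∀ a b : V, a ≠ b → G.Adj a b
    · exfalso
      have key : ∀ t v, v ∈ cleared G p t → v = p t 0 ∨ v = p t 1 := by
        intro t
        induction t with
        | zero =>
          rintro v ⟨i, rfl⟩
          fin_cases i
          · left; rfl
          · right; rfl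
        | succ t ih =>
          rintro v (⟨i, rfl⟩ | ⟨h1, h2⟩)
          · fin_cases i
            · left; rfl
            · right; rfl
          · exfalso
            have hvp := ih v h1
            obtain ⟨x, y, z, hxy, hxz, hyz, hx, hy, hz, hc⟩ := hquad v
            have hex : ∀ w, w ≠ v → w ≠ p t 0 → w ≠ p t 1 → ∃ i, p t i = v ∧ p (t + 1) i = w := by
              intro w hw h0 h1'
              refine h2 w (hcomp v w hw.symm) (fun h => ?_)
              rcases ih w h with h | h
              · exact h0 h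
              · exact h1' h
            simp only [Fin.exists_fin_two] at hex
            have ex := hex x hx
            have ey := hex y hy
            have ez := hex z hz
            have c0 := hc (p t 0)
            have c1 := hc (p t 1)
            clear hex h2 ih hall hT hquad hcomp hiso hp hc h1
            grind
      obtain ⟨u⟩ : Nonempty V := by
        rw [← Fintype.card_pos_iff, hV]; norm_num
      obtain ⟨x, y, z, hxy, hxz, hyz, hx, hy, hz, hc⟩ := hquad u
      have k1 := key T x (hall x)
      have k2 := key T y (hall y)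
      have k3 := key T z (hall z)
      clear hc key hiso hcomp hquad hall hT hp
      grind
    · push Not at hcomp
      obtain ⟨u, v, huv, hnadj⟩ := hcomp
      obtain ⟨x, y, z, hxy, hxz, hyz, hx, hy, hz, hc⟩ := hquad u
      have main : ∀ x y v : V, x ≠ y → x ≠ v → y ≠ v → x ≠ u → y ≠ u → v ≠ u →
          (∀ w, w = u ∨ w = x ∨ w = y ∨ w = v) → ¬ G.Adj u v → MonotoneSweepable G 2 := by
        intro x y v hxy hxv hyv hxu hyu hvu hc hnadj
        obtain ⟨w, hw⟩ := hiso u
        obtain ⟨w', hw'⟩ := hiso v
        have hw'' : G.Adj x v ∨ G.Adj y v := by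
          rcases hc w' with rfl | rfl | rfl | rfl
          · exact absurd hw'.symm hnadj
          · exact Or.inl hw'.symm
          · exact Or.inr hw'.symm
          · exact absurd hw' (G.irrefl)
        rcases hc w with rfl | rfl | rfl | rfl
        · exact absurd hw (G.irrefl)
        · exact nonadj_case G u y w v (fun s => by have := hc s; tauto) hnadj hw hw''.symm
        · exact nonadj_case G u x w v hc hnadj hw hw''
        · exact absurd hw hnadj
      rcases hc v with rfl | rfl | rfl | rfl
      · exact absurd rfl huv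
      · exact main y z v hyz hxy.symm hxz.symm hy hz hx (fun w => by have := hc w; tauto) hnadj
      · exact main x z v hxz hxy hyz.symm hx hz hy (fun w => by have := hc w; tauto) hnadj
      · exact main x y v hxy hxz hyz hx hy hz hc hnadj

lemma small_graphs [Fintype V] (G : SimpleGraph V) (k : ℕ) (hk : 1 ≤ k)
    (hV : Fintype.card V ≤ 4) (hs : Sweepable G k) : MonotoneSweepable G k := by
  have hne : Nonempty V := by
    obtain ⟨p, -⟩ := hs
    exact ⟨p 0 ⟨0, hk⟩⟩
  by_cases h1 : Fintype.card V ≤ k
  · exact many_lions G k h1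
  by_cases h2 : Fintype.card V = k + 1
  · exact card_minus_one G k h2 hs
  by_cases h3 : k = 1
  · subst h3; exact one_lion G hs
  have h4 : Fintype.card V = 4 := by omega
  obtain rfl : k = 2 := by omega
  exact four_two G h4 hs

/-- The least number of lions in a counterexample is `2`, and the least number of vertices of a
counterexample is `5`. -/
theorem result :
    IsLeast {k : ℕ | 1 ≤ k ∧ ∃ (V : Type) (_ : Finite V) (G : SimpleGraph V),
      Sweepable G k ∧ ¬ MonotoneSweepable G k} 2 ∧
    IsLeast {n : ℕ | ∃ (V : Type) (_ : Fintype V) (G : SimpleGraph V) (k : ℕ),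
      Fintype.card V = n ∧ 1 ≤ k ∧ Sweepable G k ∧ ¬ MonotoneSweepable G k} 5 := by
  refine ⟨⟨⟨by norm_num, Fin 5, inferInstance, K23, sweep_K23, not_monotone_K23⟩, ?_⟩,
    ⟨⟨Fin 5, inferInstance, K23, 2, by simp, by norm_num, sweep_K23, not_monotone_K23⟩, ?_⟩⟩
  · rintro k ⟨hk, V, _, G, h1, h2⟩
    by_contra hlt
    obtain rfl : k = 1 := by omega
    exact h2 (one_lion G h1)
  · rintro n ⟨V, _, G, k, hn, hk, h1, h2⟩
    by_contra hlt
    exact h2 (small_graphs G k hk (by omega) h1)

end Pool.Agent.Results.MP_95728c_co.Q2Smallest
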